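import Mathlib

/-!
A non-classical symmetric net with an automorphism group that is transitive on (ordered) pairs of
joined points and on (ordered) pairs of distinct non-joined points: the symmetric `(3,2)`-net of the
generalized Hadamard matrix of order 6 over the group of order 3.
-/

namespace Pool.Agent.Results.MP_36fbc5_co.NonClassicalNet

/-- `(V, B, I)` is an `(s, r, μ)`-net: `|V| = s² μ`; a block is determined by its set of points and has
`s μ` points; the blocks are partitioned (by an equivalence relation) into `r` parallel classes, each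
of which partitions the point set; two non-parallel blocks meet in exactly `μ` points. -/
structure IsNet {V B : Type} (I : V → B → Prop) (s r μ : ℕ) : Prop where
  two_le : 2 ≤ s
  one_le : 1 ≤ μ
  three_le : 3 ≤ r
  card_points : Nat.card V = s ^ 2 * μ
  block_ext : ∀ b c : B, (∀ p : V, I p b ↔ I p c) → b = c
  block_card : ∀ b : B, Set.ncard {p : V | I p b} = s * μ
  classes : ∃ R : Setoid B, Nat.card (Quotient R) = r ∧
    (∀ (b : B) (p : V), ∃! c : B, R b c ∧ I p c) ∧
    (∀ b c : B, ¬ R b c → Set.ncard {p : V | I p b ∧ I p c} = μ)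

/-- A symmetric `(s, μ)`-net: an `(s, s μ, μ)`-net whose dual is again an `(s, s μ, μ)`-net. -/
def IsSymmetricNet {V B : Type} (I : V → B → Prop) (s μ : ℕ) : Prop :=
  IsNet I s (s * μ) μ ∧ IsNet (fun (b : B) (p : V) => I p b) s (s * μ) μ

/-- Two distinct points are joined when some block contains both. -/
def Joined {V B : Type} (I : V → B → Prop) (p q : V) : Prop :=
  p ≠ q ∧ ∃ b : B, I p b ∧ I q b

/-- An automorphism: a permutation of the points that maps blocks to blocks. -/
def IsAut {V B : Type} (I : V → B → Prop) (g : Equiv.Perm V) : Prop :=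
  ∀ b : B, ∃ c : B, g '' {p : V | I p b} = {p : V | I p c}

/-- `(V, B, I)` is classical: for a finite field `F`, some `d ≥ 2` and a nonzero direction `l`, the
points can be identified with the affine space `F^d` in such a way that the blocks become exactly the
hyperplanes not parallel to `l`. -/
def IsClassical {V B : Type} (I : V → B → Prop) : Prop :=
  ∃ (F : Type) (_ : Field F) (_ : Finite F) (d : ℕ) (l : Fin d → F) (e : V ≃ (Fin d → F)),
    2 ≤ d ∧ l ≠ 0 ∧
    Set.range (fun b : B => e '' {p : V | I p b}) =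
      {H : Set (Fin d → F) | ∃ (φ : Module.Dual F (Fin d → F)) (c : F),
        φ l ≠ 0 ∧ H = {x | φ x = c}}

/-! ### The net -/

/-- The generalized Hadamard matrix of order 6 over the integers mod 3. -/
def had : List (List ℕ) :=
  [[0,0,0,0,0,0],[0,0,1,2,2,1],[0,1,0,1,2,2],[0,2,1,0,1,2],[0,2,2,1,0,1],[0,1,2,2,1,0]]

/-- Its entries. -/
def entry (i j : ℕ) : ℕ := (had.getD i []).getD j 0

/-- Incidence of the point `p = 3 j + g` with the block `b = 3 i + x`. -/
def Inc (p b : Fin 18) : Prop := (entry (b.val / 3) (p.val / 3) + p.val % 3) % 3 = b.val % 3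

instance : DecidableRel Inc := fun p b => by unfold Inc; infer_instance

/-- The class of a point or block. -/
def cls (p : Fin 18) : Fin 6 := ⟨p.val / 3, by omega⟩

theorem cls_surj : Function.Surjective cls := by decide +kernel

theorem card_quot : Nat.card (Quotient (Setoid.ker cls)) = 6 := by
  rw [Nat.card_congr (Setoid.quotientKerEquivOfSurjective cls cls_surj)]
  simp

theorem inc_ext : ∀ b c : Fin 18, (∀ p : Fin 18, Inc p b ↔ Inc p c) → b = c := by decide +kernel

theorem inc_ext' : ∀ b c : Fin 18, (∀ p : Fin 18, Inc b p ↔ Inc c p) → b = c := by decide +kernel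

theorem inc_card : ∀ b : Fin 18, (Finset.univ.filter (fun p : Fin 18 => Inc p b)).card = 6 := by
  decide +kernel

theorem inc_card' : ∀ b : Fin 18, (Finset.univ.filter (fun p : Fin 18 => Inc b p)).card = 6 := by
  decide +kernel

theorem inc_part : ∀ b p : Fin 18, ∃ c : Fin 18, (cls b = cls c ∧ Inc p c) ∧
    ∀ c' : Fin 18, (cls b = cls c' ∧ Inc p c') → c' = c := by decide +kernel

theorem inc_part' : ∀ b p : Fin 18, ∃ c : Fin 18, (cls b = cls c ∧ Inc c p) ∧
    ∀ c' : Fin 18, (cls b = cls c' ∧ Inc c' p) → c' = c := by decide +kernel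

theorem inc_meet : ∀ b c : Fin 18, ¬ cls b = cls c →
    (Finset.univ.filter (fun p : Fin 18 => Inc p b ∧ Inc p c)).card = 2 := by decide +kernel

theorem inc_meet' : ∀ b c : Fin 18, ¬ cls b = cls c →
    (Finset.univ.filter (fun p : Fin 18 => Inc b p ∧ Inc c p)).card = 2 := by decide +kernel

theorem isNet : IsNet Inc 3 6 2 where
  two_le := by norm_num
  one_le := by norm_num
  three_le := by norm_num
  card_points := by simp
  block_ext := inc_ext
  block_card := by
    intro b
    rw [Set.ncard_eq_toFinset_card']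
    simpa using inc_card b
  classes := by
    refine ⟨Setoid.ker cls, card_quot, ?_, ?_⟩
    · intro b p
      obtain ⟨c, hc, hu⟩ := inc_part b p
      exact ⟨c, hc, hu⟩
    · intro b c h
      rw [Set.ncard_eq_toFinset_card']
      simpa using inc_meet b c h

theorem isNet' : IsNet (fun (b p : Fin 18) => Inc p b) 3 6 2 where
  two_le := by norm_num
  one_le := by norm_num
  three_le := by norm_num
  card_points := by simp
  block_ext := inc_ext'
  block_card := by
    intro b
    rw [Set.ncard_eq_toFinset_card']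
    simpa using inc_card' b
  classes := by
    refine ⟨Setoid.ker cls, card_quot, ?_, ?_⟩
    · intro b p
      obtain ⟨c, hc, hu⟩ := inc_part' b p
      exact ⟨c, hc, hu⟩
    · intro b c h
      rw [Set.ncard_eq_toFinset_card']
      simpa using inc_meet' b c h

/-! ### The group -/

/-- Look up in a list of length 18. -/
def look (L : List (Fin 18)) (x : Fin 18) : Fin 18 := L.getD x.val 0

/-- First generator, on points. -/
def genA : Equiv.Perm (Fin 18) where
  toFun := look [4,3,5,9,11,10,2,1,0,17,16,15,6,8,7,13,12,14]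
  invFun := look [8,7,6,1,0,2,12,14,13,3,5,4,16,15,17,11,10,9]
  left_inv := by decide +kernel
  right_inv := by decide +kernel

/-- First generator, on blocks. -/
def genA' : Equiv.Perm (Fin 18) where
  toFun := look [17,16,15,9,11,10,8,7,6,12,14,13,4,3,5,1,0,2]
  invFun := look [16,15,17,13,12,14,8,7,6,3,5,4,9,11,10,2,1,0]
  left_inv := by decide +kernel
  right_inv := by decide +kernel

/-- Second generator, on points. -/
def genB : Equiv.Perm (Fin 18) where
  toFun := look [0,1,2,4,5,3,8,6,7,14,12,13,16,17,15,9,10,11]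
  invFun := look [0,1,2,5,3,4,7,8,6,15,16,17,10,11,9,14,12,13]
  left_inv := by decide +kernel
  right_inv := by decide +kernel

/-- Second generator, on blocks. -/
def genB' : Equiv.Perm (Fin 18) where
  toFun := look [9,10,11,12,13,14,3,4,5,15,16,17,6,7,8,0,1,2]
  invFun := look [15,16,17,6,7,8,12,13,14,0,1,2,3,4,5,9,10,11]
  left_inv := by decide +kernel
  right_inv := by decide +kernel

theorem genA_inc : ∀ p b : Fin 18, Inc (genA p) (genA' b) ↔ Inc p b := by decide +kernel

theorem genB_inc : ∀ p b : Fin 18, Inc (genB p) (genB' b) ↔ Inc p b := by decide +kernel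

/-- The group generated by the two generators. -/
def grp : Subgroup (Equiv.Perm (Fin 18)) := Subgroup.closure {genA, genB}

theorem grp_inc (g : Equiv.Perm (Fin 18)) (hg : g ∈ grp) :
    ∃ h : Equiv.Perm (Fin 18), ∀ p b : Fin 18, Inc (g p) (h b) ↔ Inc p b := by
  unfold grp at hg
  induction hg using Subgroup.closure_induction with
  | mem x hx =>
    rcases hx with rfl | hx
    · exact ⟨genA', genA_inc⟩
    · rw [Set.mem_singleton_iff] at hx
      subst hx
      exact ⟨genB', genB_inc⟩
  | one => exact ⟨1, fun p b => Iff.rfl⟩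
  | mul x y _ _ hx hy =>
    obtain ⟨h₁, h₁'⟩ := hx
    obtain ⟨h₂, h₂'⟩ := hy
    refine ⟨h₁ * h₂, fun p b => ?_⟩
    rw [Equiv.Perm.mul_apply, Equiv.Perm.mul_apply, h₁', h₂']
  | inv x _ hx =>
    obtain ⟨h, h'⟩ := hx
    refine ⟨h⁻¹, fun p b => ?_⟩
    have := h' (x⁻¹ p) (h⁻¹ b)
    simpa using this.symm

theorem grp_aut (g : Equiv.Perm (Fin 18)) (hg : g ∈ grp) : IsAut Inc g := by
  obtain ⟨h, hh⟩ := grp_inc g hg
  intro b
  refine ⟨h b, ?_⟩
  ext q
  simp only [Set.mem_image, Set.mem_ofPred_eq]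
  constructor
  · rintro ⟨p, hp, rfl⟩
    exact (hh p b).2 hp
  · intro hq
    refine ⟨g⁻¹ q, ?_, by simp⟩
    rw [← hh (g⁻¹ q) b]
    simpa using hq

/-- Apply the word coded by `n` (at most `k` letters). -/
def run : ℕ → ℕ → Fin 18 → Fin 18
  | 0, _, x => x
  | k + 1, n, x => if n ≤ 1 then x else run k (n / 2) (if n % 2 = 0 then genA x else genB x)

theorem run_mem (k : ℕ) : ∀ n : ℕ, ∃ g ∈ grp, ∀ x, g x = run k n x := by
  induction k with
  | zero => intro n; exact ⟨1, grp.one_mem, fun x => rfl⟩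
  | succ k ih =>
    intro n
    by_cases h1 : n ≤ 1
    · exact ⟨1, grp.one_mem, fun x => by simp [run, h1]⟩
    · obtain ⟨g, hg, hx⟩ := ih (n / 2)
      by_cases h2 : n % 2 = 0
      · refine ⟨g * genA, grp.mul_mem hg (Subgroup.subset_closure (by simp)), fun x => ?_⟩
        rw [Equiv.Perm.mul_apply, hx]
        simp [run, h1, h2]
      · refine ⟨g * genB, grp.mul_mem hg (Subgroup.subset_closure (by simp)), fun x => ?_⟩
        rw [Equiv.Perm.mul_apply, hx]
        simp [run, h1, h2]

/-- Codes of words that move the base pair to a given pair. -/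
def wordTable : List (List ℕ) := [
  [1, 1, 728, 1, 3, 7, 834, 322, 728, 457, 666, 228, 147, 36, 73, 201, 403, 100],
  [152, 1, 84, 160, 140, 396, 406, 150, 301, 425, 272, 212, 784, 468, 152, 169, 339, 84],
  [74, 344, 1, 202, 332, 74, 436, 180, 361, 306, 646, 386, 1670, 342, 530, 344, 523, 130],
  [557, 278, 662, 1, 280, 14, 452, 280, 724, 288, 652, 268, 394, 297, 148, 14, 59, 29],
  [1240, 578, 1346, 2, 1, 792, 275, 137, 68, 2, 11, 5, 659, 329, 164, 356, 906, 713],
  [617, 308, 692, 600, 6, 1, 393, 196, 598, 330, 138, 588, 27, 13, 6, 420, 1158, 562],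
  [204, 85, 42, 178, 154, 390, 1, 216, 42, 66, 267, 216, 467, 233, 116, 214, 581, 274],
  [76, 96, 234, 289, 134, 144, 52, 1, 88, 52, 211, 105, 347, 173, 86, 177, 355, 88],
  [65, 32, 106, 300, 434, 410, 472, 20, 1, 470, 592, 560, 779, 472, 194, 20, 83, 41],
  [432, 422, 464, 534, 1545, 772, 236, 276, 473, 1, 22, 24, 91, 22, 45, 24, 99, 49],
  [101, 50, 203, 453, 210, 226, 43, 10, 21, 50, 1, 10, 866, 676, 1074, 914, 266, 930],
  [132, 265, 876, 1744, 1872, 1712, 225, 102, 112, 4, 102, 1, 1418, 612, 950, 9, 19, 4],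
  [90, 114, 181, 34, 69, 139, 26, 53, 107, 146, 325, 162, 1, 26, 114, 594, 610, 1700],
  [388, 172, 345, 294, 304, 336, 67, 16, 33, 25, 51, 12, 230, 1, 12, 182, 731, 365],
  [70, 161, 80, 684, 1412, 620, 179, 89, 44, 56, 227, 113, 54, 56, 1, 109, 219, 54],
  [176, 166, 208, 521, 260, 1388, 217, 108, 435, 237, 475, 118, 35, 17, 8, 1, 118, 8],
  [37, 18, 75, 82, 98, 197, 117, 235, 58, 709, 354, 338, 522, 418, 402, 18, 1, 58],
  [900, 428, 364, 848, 688, 720, 48, 97, 38, 438, 1284, 877, 115, 28, 57, 28, 38, 1]]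

/-- Entry of the table. -/
def word (p q : Fin 18) : ℕ := (wordTable.getD p.val []).getD q.val 1

theorem word_joined : ∀ p q : Fin 18, cls p ≠ cls q →
    run 12 (word p q) 0 = p ∧ run 12 (word p q) 3 = q := by decide +kernel

theorem word_nonjoined : ∀ p q : Fin 18, cls p = cls q → p ≠ q →
    run 12 (word p q) 0 = p ∧ run 12 (word p q) 1 = q := by decide +kernel

theorem joined_cls : ∀ p q : Fin 18, (p ≠ q ∧ ∃ b, Inc p b ∧ Inc q b) ↔ cls p ≠ cls q := by
  decide +kernel

theorem not_classical : ¬ IsClassical Inc := by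
  rintro ⟨F, _, _, d, l, e, hd, hl, -⟩
  have h1 : Nat.card (Fin 18) = Nat.card (Fin d → F) := Nat.card_congr e
  rw [Nat.card_fun, Nat.card_fin, Nat.card_fin] at h1
  have h2 : 2 ∣ Nat.card F ^ d := by rw [← h1]; norm_num
  have h3 : 2 ∣ Nat.card F := Nat.prime_two.dvd_of_dvd_pow h2
  have h4 : 2 ^ d ∣ Nat.card F ^ d := pow_dvd_pow_of_dvd h3 d
  have h5 : 2 ^ 2 ∣ 2 ^ d := pow_dvd_pow 2 hd
  have h6 : 2 ^ 2 ∣ 18 := by rw [h1]; exact h5.trans h4
  omega

/-- There is a symmetric `(3,2)`-net that is not classical and has an automorphism group transitive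
on ordered pairs of joined points and on ordered pairs of distinct non-joined points. -/
theorem result : ∃ (V B : Type) (I : V → B → Prop) (G : Subgroup (Equiv.Perm V)),
    IsSymmetricNet I 3 2 ∧
    (∀ g ∈ G, IsAut I g) ∧
    (∀ p q p' q' : V, Joined I p q → Joined I p' q' → ∃ g ∈ G, g p = p' ∧ g q = q') ∧
    (∀ p q p' q' : V, p ≠ q → ¬ Joined I p q → p' ≠ q' → ¬ Joined I p' q' →
      ∃ g ∈ G, g p = p' ∧ g q = q') ∧
    ¬ IsClassical I := by
  refine ⟨Fin 18, Fin 18, Inc, grp, ⟨isNet, isNet'⟩, grp_aut, ?_, ?_, not_classical⟩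
  · intro p q p' q' h h'
    have h1 := word_joined p q ((joined_cls p q).1 h)
    have h2 := word_joined p' q' ((joined_cls p' q').1 h')
    obtain ⟨g, hg, hgx⟩ := run_mem 12 (word p q)
    obtain ⟨g', hg', hgx'⟩ := run_mem 12 (word p' q')
    refine ⟨g' * g⁻¹, grp.mul_mem hg' (grp.inv_mem hg), ?_, ?_⟩
    · rw [← h1.1, ← hgx, ← h2.1, ← hgx']; simp
    · rw [← h1.2, ← hgx, ← h2.2, ← hgx']; simp
  · intro p q p' q' hne h hne' h'
    have hc : ∀ x y : Fin 18, ¬ Joined Inc x y → cls x = cls y := fun x y hxy => by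
      by_contra hcon
      exact hxy ((joined_cls x y).2 hcon)
    have h1 := word_nonjoined p q (hc p q h) hne
    have h2 := word_nonjoined p' q' (hc p' q' h') hne'
    obtain ⟨g, hg, hgx⟩ := run_mem 12 (word p q)
    obtain ⟨g', hg', hgx'⟩ := run_mem 12 (word p' q')
    refine ⟨g' * g⁻¹, grp.mul_mem hg' (grp.inv_mem hg), ?_, ?_⟩
    · rw [← h1.1, ← hgx, ← h2.1, ← hgx']; simp
    · rw [← h1.2, ← hgx, ← h2.2, ← hgx']; simp

end Pool.Agent.Results.MP_36fbc5_co.NonClassicalNet
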